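import Pool.Agent.Y404.UB.Model
import Pool.Agent.Y404.UB.Mono

set_option autoImplicit false

/-!
# Uniform balls of every radius, every diameter and every number of orbits

For every `r ≥ 1`, every `s ≥ 2` and every `ε > 0` there is a finite connected graph of diameter
`r + 1` in which, for every radius `t ≤ r`, all balls of radius `t` are isomorphic as rooted graphs,
and the balls of radius `r` contain a proportion at least `1 - ε` of all vertices, but whose
automorphism group has exactly `s` orbits on the vertices. The starting result of this folder is the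
case `r = 1` with at least two orbits.
-/

namespace Pool.Agent.Results.MP_409260_co.EveryRadius

open Pool.Agent.Results.MP_409260_co.NotTransitive

/-- **Uniform `k`-balls of every radius with every number of orbits.** For every `r ≥ 1`, every
`s ≥ 2` and every `ε > 0` there are `n`, `k` with `n/2 < k < n` and `(1-ε) n ≤ k` and a connected
graph `G` on `n` vertices of diameter exactly `r + 1`, all of whose balls of radius `r` have `k`
vertices and are pairwise isomorphic as rooted graphs (so that `G` has uniform `k`-balls), and
likewise the balls of every smaller radius, such that the automorphism group of `G` has exactly `s`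
orbits: the vertices `f 0, ..., f (s-1)` are pairwise inequivalent and every vertex is equivalent to
one of them. In particular `G` is not vertex transitive. -/
theorem result :
    ∀ (r s : ℕ), 1 ≤ r → 2 ≤ s → ∀ ε : ℝ, 0 < ε →
      ∃ (n k : ℕ) (V : Type) (_ : Fintype V) (G : SimpleGraph V),
        Fintype.card V = n ∧ (n : ℝ) / 2 < k ∧ k < n ∧ (1 - ε) * n ≤ k ∧
        G.Connected ∧ G.ediam = ((r + 1 : ℕ) : ℕ∞) ∧
        UniformBallsOfRadius G r k ∧ UniformBalls G k ∧
        (∀ t ≤ r, ∃ k', UniformBallsOfRadius G t k') ∧ ¬ VertexTransitive G ∧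
        ∃ f : Fin s → V, (∀ i j, i ≠ j → ¬ ∃ φ : G ≃g G, φ (f i) = f j) ∧
          ∀ v, ∃ i, ∃ φ : G ≃g G, φ (f i) = v := by
  intro r s hr hs ε hε
  obtain ⟨n, k, V, hV, G, h1, h2, h3, h4, h5, h6, h7, f, h8, h9⟩ :=
    Pool.Agent.Y404.UB.main r s hr (by omega) ε hε
  have : Nonempty V := h5.nonempty
  refine ⟨n, k, V, hV, G, h1, h2, h3, h4, h5, h6, h7, ⟨r, h7⟩,
    fun t ht => Pool.Agent.Y404.UB.uniform_mono ht h7, ?_, f, h8, h9⟩
  intro hT
  refine h8 ⟨0, by omega⟩ ⟨1, by omega⟩ ?_ (hT _ _)
  intro h
  exact absurd (Fin.mk.inj_iff.mp h) (by norm_num)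

end Pool.Agent.Results.MP_409260_co.EveryRadius
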